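import Pool.Agent.H.MP_bcad5b_nt.D

namespace Pool.Agent.Results.MP_bcad5b_nt.Yes

theorem result (n : ℕ) (_hn : 1 ≤ n) :
    ((Set.range (orderOf : Equiv.Perm (Fin n) → ℕ)).ncard : ℝ) ≤ Real.exp (Real.sqrt n) := by
  have := Pool.Agent.H.MP_bcad5b_nt.main n
  rwa [← Set.ncard_coe_finset, Finset.coe_image, Finset.coe_univ, Set.image_univ] at this

end Pool.Agent.Results.MP_bcad5b_nt.Yes
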